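import Mathlib
import Pool.Agent.U220.RD.Stm

/-! Project RD, package GEO: the dual variety of a reciprocal linear space is the closure of the
set of critical covectors. -/

namespace Pool.Agent.U928.RD

open MvPolynomial

open Pool.Agent.U220.RD (form reciprocal tangent Smooth dual critical)

/-- local name for the projective Zariski closure -/
abbrev cl {N : ℕ} (X : Set (Fin N → ℂ)) : Set (Fin N → ℂ) := Pool.Agent.U220.RD.closure X

variable {N m : ℕ}

/-- chain rule for polynomial functions along a curve -/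
lemma chain (F : MvPolynomial (Fin N) ℂ) (y : ℂ → Fin N → ℂ) (y' : Fin N → ℂ) (e : ℂ)
    (hy : ∀ i, HasDerivAt (fun x => y x i) (y' i) e) :
    HasDerivAt (fun x => eval (y x) F) (∑ i, eval (y e) (pderiv i F) * y' i) e := by
  induction F using MvPolynomial.induction_on with
  | C c => simpa using hasDerivAt_const e c
  | add p q hp hq =>
    have h := hp.fun_add hq
    simpa only [map_add, add_mul, Finset.sum_add_distrib] using h
  | mul_X p i hp =>
    have h := hp.fun_mul (hy i)
    have h2 : (∑ j, eval (y e) (pderiv j (p * X i)) * y' j) =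
        (∑ j, eval (y e) (pderiv j p) * y' j) * y e i + eval (y e) p * y' i := by
      simp only [Derivation.leibniz, map_add, smul_eq_mul, map_mul, eval_X, pderiv_X, add_mul,
        Finset.sum_add_distrib]
      rw [Finset.sum_mul, add_comm]
      congr 1
      · refine Finset.sum_congr rfl fun j _ => by ring
      · rw [Finset.sum_eq_single i]
        · simp
        · intro b _ hb
          simp [hb.symm]
        · simp
    rw [h2]
    simpa only [map_mul, eval_X] using h

/-- the torus points of the reciprocal linear space -/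
def RR (a : Fin N → Fin m → ℂ) : Set (Fin N → ℂ) :=
  {y | ∃ t : Fin m → ℂ, (∀ i, form (a i) t ≠ 0) ∧ y = fun i => (form (a i) t)⁻¹}

lemma reciprocal_eq (a : Fin N → Fin m → ℂ) : reciprocal a = cl (RR a) := rfl

lemma subset_cl {X : Set (Fin N → ℂ)} {y : Fin N → ℂ} (hy : y ∈ X) (h0 : y ≠ 0) :
    y ∈ cl X := ⟨h0, fun _ _ _ hF => hF y hy⟩

lemma RR_ne (hN : N ≠ 0) (a : Fin N → Fin m → ℂ) (t : Fin m → ℂ)
    (ht : ∀ i, form (a i) t ≠ 0) : (fun i => (form (a i) t)⁻¹) ≠ 0 := by
  intro h0
  have := congrFun h0 ⟨0, Nat.pos_of_ne_zero hN⟩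
  simp only [Pi.zero_apply, inv_eq_zero] at this
  exact ht _ this

lemma RR_mem (hN : N ≠ 0) (a : Fin N → Fin m → ℂ) (t : Fin m → ℂ)
    (ht : ∀ i, form (a i) t ≠ 0) : (fun i => (form (a i) t)⁻¹) ∈ reciprocal a := by
  rw [reciprocal_eq]
  exact subset_cl ⟨t, ht, rfl⟩ (RR_ne hN a t ht)

lemma van_iff (hN : N ≠ 0) (a : Fin N → Fin m → ℂ) (F : MvPolynomial (Fin N) ℂ) (k : ℕ)
    (hF : F.IsHomogeneous k) :
    (∀ x ∈ reciprocal a, eval x F = 0) ↔ (∀ x ∈ RR a, eval x F = 0) := by
  constructor
  · rintro h x ⟨t, ht, rfl⟩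
    exact h _ (RR_mem hN a t ht)
  · intro h x hx
    exact hx.2 F k hF h

lemma form_add (a s t : Fin m → ℂ) : form a (s + t) = form a s + form a t := by
  simp [form, mul_add, Finset.sum_add_distrib]

lemma form_smul (a t : Fin m → ℂ) (c : ℂ) : form a (c • t) = c * form a t := by
  simp only [form, Pi.smul_apply, smul_eq_mul, Finset.mul_sum]
  refine Finset.sum_congr rfl fun i _ => by ring

lemma form_single (a : Fin m → ℂ) (j : Fin m) : form a (Pi.single j 1) = a j := by
  simp [form, Pi.single_apply]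

/-- the vectors `form (a i) s / form (a i) t ^ 2` are tangent at `y t`. -/
lemma mem_tangent (hN : N ≠ 0) (a : Fin N → Fin m → ℂ) (t s : Fin m → ℂ)
    (ht : ∀ i, form (a i) t ≠ 0) :
    (fun i => form (a i) s / form (a i) t ^ 2) ∈
      tangent (reciprocal a) (fun i => (form (a i) t)⁻¹) := by
  intro F k hF hX
  rw [van_iff hN a F k hF] at hX
  have h1 : HasDerivAt (fun x : ℂ => eval (fun i => (form (a i) (t + x • s))⁻¹) F)
      (∑ i, eval (fun i => (form (a i) (t + (0 : ℂ) • s))⁻¹) (pderiv i F) *
        (-(form (a i) s / form (a i) t ^ 2))) 0 := by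
    apply chain F (fun x i => (form (a i) (t + x • s))⁻¹)
    intro i
    have h2 : HasDerivAt (fun x : ℂ => form (a i) t + x * form (a i) s) (form (a i) s) 0 := by
      simpa using ((hasDerivAt_id (0 : ℂ)).mul_const (form (a i) s)).const_add (form (a i) t)
    have h3 : HasDerivAt (fun x : ℂ => (form (a i) t + x * form (a i) s)⁻¹)
        (-(form (a i) s) / (form (a i) t + 0 * form (a i) s) ^ 2) 0 := by
      apply h2.fun_inv
      simpa using ht i
    have h4 : (fun x : ℂ => (form (a i) (t + x • s))⁻¹) =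
        fun x : ℂ => (form (a i) t + x * form (a i) s)⁻¹ := by
      funext x
      rw [form_add, form_smul]
    rw [h4]
    convert h3 using 1
    rw [zero_mul, add_zero, neg_div]
  have h5 : (fun x : ℂ => eval (fun i => (form (a i) (t + x • s))⁻¹) F) =ᶠ[nhds 0]
      fun _ => (0 : ℂ) := by
    have h6 : ∀ i, ∀ᶠ x : ℂ in nhds 0, form (a i) (t + x • s) ≠ 0 := by
      intro i
      have hc : ContinuousAt (fun x : ℂ => form (a i) (t + x • s)) 0 := by
        have : (fun x : ℂ => form (a i) (t + x • s)) =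
            fun x : ℂ => form (a i) t + x * form (a i) s := by
          funext x
          rw [form_add, form_smul]
        rw [this]
        fun_prop
      apply hc.eventually_ne
      simpa using ht i
    have h7 := Filter.eventually_all.2 h6
    filter_upwards [h7] with x hx
    exact hX _ ⟨t + x • s, hx, rfl⟩
  have h8 : HasDerivAt (fun x : ℂ => eval (fun i => (form (a i) (t + x • s))⁻¹) F) 0 0 :=
    (hasDerivAt_const (0 : ℂ) (0 : ℂ)).congr_of_eventuallyEq h5
  have h9 := h1.unique h8
  simp only [zero_smul, add_zero, mul_neg, Finset.sum_neg_distrib, neg_eq_zero] at h9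
  exact h9

lemma pi_apply_sum (f : (Fin N → ℂ) →ₗ[ℂ] ℂ) (u : Fin N → ℂ) :
    f u = ∑ i, u i * f (Pi.single i 1) := by
  rw [LinearMap.pi_apply_eq_sum_univ f u]
  refine Finset.sum_congr rfl fun i _ => ?_
  rw [smul_eq_mul]
  congr 2
  funext j
  simp [Pi.single_apply, eq_comm]

/-- separation of a vector from a subspace by a dot product -/
lemma sep (V : Submodule ℂ (Fin N → ℂ)) (u : Fin N → ℂ) (hu : u ∉ V) :
    ∃ c : Fin N → ℂ, (∀ v ∈ V, ∑ i, v i * c i = 0) ∧ ∑ i, u i * c i ≠ 0 := by
  obtain ⟨f, hf, hf2⟩ := Submodule.exists_le_ker_of_notMem (p := V) hu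
  refine ⟨fun i => f (Pi.single i 1), ?_, ?_⟩
  · intro v hv
    rw [← pi_apply_sum]
    exact hf2 hv
  · rw [← pi_apply_sum]
    exact hf

/-- the linear map `s ↦ (form (a i) s)` -/
def Lf (a : Fin N → Fin m → ℂ) : (Fin m → ℂ) →ₗ[ℂ] (Fin N → ℂ) where
  toFun s := fun i => form (a i) s
  map_add' s t := by funext i; exact form_add _ _ _
  map_smul' c t := by funext i; exact form_smul _ _ _

/-- the linear map onto the tangent space -/
noncomputable def Lt (a : Fin N → Fin m → ℂ) (t : Fin m → ℂ) : (Fin m → ℂ) →ₗ[ℂ] (Fin N → ℂ) where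
  toFun s := fun i => form (a i) s / form (a i) t ^ 2
  map_add' s r := by funext i; simp only [form_add, Pi.add_apply, add_div]
  map_smul' c s := by
    funext i; simp only [form_smul, Pi.smul_apply, smul_eq_mul, RingHom.id_apply, mul_div_assoc]

/-- every tangent vector at `y t` comes from the linear space -/
lemma tangent_sub (hN : N ≠ 0) (a : Fin N → Fin m → ℂ) (t : Fin m → ℂ)
    (ht : ∀ i, form (a i) t ≠ 0) (v : Fin N → ℂ)
    (hv : v ∈ tangent (reciprocal a) (fun i => (form (a i) t)⁻¹)) :
    ∃ s, v = fun i => form (a i) s / form (a i) t ^ 2 := by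
  by_cases hw : (fun i => form (a i) t ^ 2 * v i) ∈ LinearMap.range (Lf a)
  · obtain ⟨s, hs⟩ := hw
    refine ⟨s, ?_⟩
    funext i
    have h1 := congrFun hs i
    simp only [Lf, LinearMap.coe_mk, AddHom.coe_mk] at h1
    rw [h1, mul_comm, mul_div_assoc, div_self (pow_ne_zero 2 (ht i)), mul_one]
  exfalso
  obtain ⟨c, hc1, hc2⟩ := sep _ _ hw
  have hc3 : ∀ s : Fin m → ℂ, ∑ i, form (a i) s * c i = 0 := fun s =>
    hc1 _ (LinearMap.mem_range_self (Lf a) s)
  apply hc2
  set F : MvPolynomial (Fin N) ℂ := ∑ i, C (c i) * ∏ j ∈ Finset.univ.erase i, X j with hF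
  have hFh : F.IsHomogeneous (N - 1) := by
    refine IsHomogeneous.sum _ _ _ fun i _ => ?_
    apply IsHomogeneous.C_mul
    have := IsHomogeneous.prod (Finset.univ.erase i) (fun j : Fin N => (X j : MvPolynomial (Fin N) ℂ))
      (fun _ => 1) (fun j _ => isHomogeneous_X ℂ j)
    simpa using this
  have hev : ∀ y : Fin N → ℂ, (∀ i, y i ≠ 0) →
      eval y F = (∏ j, y j) * ∑ i, c i * (y i)⁻¹ := by
    intro y hy
    rw [hF, map_sum, Finset.mul_sum]
    refine Finset.sum_congr rfl fun i _ => ?_
    rw [map_mul, eval_C, map_prod]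
    simp only [eval_X]
    rw [← Finset.mul_prod_erase Finset.univ y (Finset.mem_univ i)]
    have := hy i
    field_simp
  have hv1 : ∀ x ∈ RR a, eval x F = 0 := by
    rintro x ⟨t', ht', rfl⟩
    rw [hev _ (fun i => inv_ne_zero (ht' i))]
    have : ∑ i, c i * ((form (a i) t')⁻¹)⁻¹ = 0 := by
      refine Eq.trans ?_ (hc3 t')
      refine Finset.sum_congr rfl fun i _ => ?_
      rw [inv_inv, mul_comm]
    rw [this, mul_zero]
  have hv2 := hv F (N - 1) hFh ((van_iff hN a F _ hFh).2 hv1)
  set y : Fin N → ℂ := fun i => (form (a i) t)⁻¹ with hy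
  have hyi : ∀ i, y i ≠ 0 := fun i => inv_ne_zero (ht i)
  have hlin : ∀ i, HasDerivAt (fun x : ℂ => y i + x * v i) (v i) 0 := by
    intro i
    simpa using ((hasDerivAt_id (0 : ℂ)).mul_const (v i)).const_add (y i)
  have h1 : HasDerivAt (fun x : ℂ => eval (fun i => y i + x * v i) F) 0 0 := by
    have := chain F (fun x i => y i + x * v i) v 0 hlin
    simp only [zero_mul, add_zero] at this
    rw [show (fun i => y i) = y from rfl, hv2] at this
    exact this
  have h2 : HasDerivAt (fun x : ℂ => ∏ j, (y j + x * v j))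
      (∑ i, eval (fun i => y i + 0 * v i) (pderiv i (∏ j, X j : MvPolynomial (Fin N) ℂ)) * v i)
      0 := by
    have := chain (∏ j, X j : MvPolynomial (Fin N) ℂ) (fun x i => y i + x * v i) v 0 hlin
    simpa only [map_prod, eval_X] using this
  have h3 : HasDerivAt (fun x : ℂ => ∑ i, c i * (y i + x * v i)⁻¹)
      (∑ i, c i * (-(v i) / (y i + 0 * v i) ^ 2)) 0 := by
    apply HasDerivAt.fun_sum
    intro i _
    apply HasDerivAt.const_mul
    apply (hlin i).fun_inv
    simpa using hyi i
  have h4 := h2.fun_mul h3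
  have h5 : (fun x : ℂ => eval (fun i => y i + x * v i) F) =ᶠ[nhds 0]
      fun x : ℂ => (∏ j, (y j + x * v j)) * ∑ i, c i * (y i + x * v i)⁻¹ := by
    have h6 : ∀ i, ∀ᶠ x : ℂ in nhds 0, y i + x * v i ≠ 0 := by
      intro i
      apply (hlin i).continuousAt.eventually_ne
      simpa using hyi i
    filter_upwards [Filter.eventually_all.2 h6] with x hx
    exact hev _ hx
  have h7 := h1.congr_of_eventuallyEq h5.symm
  have h8 := h4.unique h7
  have h9 : ∑ i, c i * (y i + 0 * v i)⁻¹ = 0 := by
    refine Eq.trans ?_ (hc3 t)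
    refine Finset.sum_congr rfl fun i _ => ?_
    rw [zero_mul, add_zero, hy]
    simp only [inv_inv]
    rw [mul_comm]
  rw [h9, mul_zero, zero_add] at h8
  rcases mul_eq_zero.1 h8 with h10 | h10
  · exfalso
    rw [Finset.prod_eq_zero_iff] at h10
    obtain ⟨i, _, hi⟩ := h10
    rw [zero_mul, add_zero] at hi
    exact hyi i hi
  · have h11 : ∑ i, c i * (-(v i) / (y i + 0 * v i) ^ 2) =
        -∑ i, form (a i) t ^ 2 * v i * c i := by
      rw [← Finset.sum_neg_distrib]
      refine Finset.sum_congr rfl fun i _ => ?_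
      rw [zero_mul, add_zero, hy]
      simp only
      have := ht i
      field_simp
    rw [h11, neg_eq_zero] at h10
    exact h10


/-- the gradient of a polynomial -/
noncomputable def grad (F : MvPolynomial (Fin N) ℂ) (q : Fin N → ℂ) : Fin N → ℂ :=
  fun i => eval q (pderiv i F)

/-- the set of gradients at `p` of homogeneous polynomials vanishing on `X`. -/
def Gs (X : Set (Fin N → ℂ)) (p : Fin N → ℂ) : Set (Fin N → ℂ) :=
  {g | ∃ (F : MvPolynomial (Fin N) ℂ) (k : ℕ), F.IsHomogeneous k ∧
    (∀ y ∈ X, eval y F = 0) ∧ g = grad F p}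

lemma mem_tangent_iff (X : Set (Fin N → ℂ)) (p v : Fin N → ℂ) :
    v ∈ tangent X p ↔ ∀ g ∈ Gs X p, ∑ i, g i * v i = 0 := by
  constructor
  · rintro h g ⟨F, k, hF, hX, rfl⟩
    exact h F k hF hX
  · intro h F k hF hX
    exact h _ ⟨F, k, hF, hX, rfl⟩

/-- the linear map whose kernel is the set of critical covectors -/
noncomputable def Qt (a : Fin N → Fin m → ℂ) (t : Fin m → ℂ) :
    (Fin N → ℂ) →ₗ[ℂ] (Fin m → ℂ) where
  toFun u := fun j => ∑ i, u i * a i j / form (a i) t ^ 2
  map_add' u v := by
    funext j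
    simp only [Pi.add_apply, add_mul, add_div, Finset.sum_add_distrib]
  map_smul' c u := by
    funext j
    simp only [Pi.smul_apply, smul_eq_mul, RingHom.id_apply, Finset.mul_sum]
    refine Finset.sum_congr rfl fun i _ => by ring

lemma Qt_range (a : Fin N → Fin m → ℂ) (ha : Submodule.span ℂ (Set.range a) = ⊤)
    (t : Fin m → ℂ) (ht : ∀ i, form (a i) t ≠ 0) : LinearMap.range (Qt a t) = ⊤ := by
  rw [eq_top_iff, ← ha, Submodule.span_le]
  rintro _ ⟨i, rfl⟩
  refine ⟨Pi.single i (form (a i) t ^ 2), ?_⟩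
  funext j
  simp only [Qt, LinearMap.coe_mk, AddHom.coe_mk]
  rw [Finset.sum_eq_single i]
  · rw [Pi.single_eq_same]
    have := ht i
    field_simp
  · intro b _ hb
    rw [Pi.single_eq_of_ne hb, zero_mul, zero_div]
  · simp

lemma Qt_ker (a : Fin N → Fin m → ℂ) (ha : Submodule.span ℂ (Set.range a) = ⊤)
    (t : Fin m → ℂ) (ht : ∀ i, form (a i) t ≠ 0) :
    m + Module.finrank ℂ (LinearMap.ker (Qt a t)) = N := by
  have h := LinearMap.finrank_range_add_finrank_ker (Qt a t)
  rw [Qt_range a ha t ht, finrank_top] at h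
  simpa using h

lemma grad_mem_ker (hN : N ≠ 0) (a : Fin N → Fin m → ℂ) (t : Fin m → ℂ)
    (ht : ∀ i, form (a i) t ≠ 0) (F : MvPolynomial (Fin N) ℂ) (k : ℕ) (hF : F.IsHomogeneous k)
    (hX : ∀ y ∈ reciprocal a, eval y F = 0) :
    grad F (fun i => (form (a i) t)⁻¹) ∈ LinearMap.ker (Qt a t) := by
  rw [LinearMap.mem_ker]
  funext j
  have h := mem_tangent hN a t (Pi.single j 1) ht F k hF hX
  simp only [form_single] at h
  simp only [Qt, LinearMap.coe_mk, AddHom.coe_mk, Pi.zero_apply, grad]
  rw [← h]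
  refine Finset.sum_congr rfl fun i _ => by rw [mul_div_assoc]

lemma orth_span (b : Set (Fin N → ℂ)) (v : Fin N → ℂ) (h : ∀ g ∈ b, ∑ i, g i * v i = 0) :
    ∀ g ∈ Submodule.span ℂ b, ∑ i, g i * v i = 0 := by
  intro g hg
  induction hg using Submodule.span_induction with
  | mem x hx => exact h x hx
  | zero => simp
  | add x y _ _ hx hy =>
    simp only [Pi.add_apply, add_mul, Finset.sum_add_distrib, hx, hy, add_zero]
  | smul c x _ hx =>
    simp only [Pi.smul_apply, smul_eq_mul, mul_assoc, ← Finset.mul_sum, hx, mul_zero]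

/-- the tangent space at every point has dimension at least `m` -/
lemma le_finrank_tangent (hN : N ≠ 0) (a : Fin N → Fin m → ℂ)
    (ha : Submodule.span ℂ (Set.range a) = ⊤) (p : Fin N → ℂ) (hp : p ∈ reciprocal a) :
    m ≤ Module.finrank ℂ (tangent (reciprocal a) p) := by
  classical
  obtain ⟨b, hbs, hspan, hli⟩ := exists_linearIndependent ℂ (Gs (reciprocal a) p)
  have hbfin : b.Finite := hli.setFinite
  have : Fintype b := hbfin.fintype
  -- the number of independent gradients
  have key : Fintype.card b + m ≤ N := by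
    by_contra hcon
    push Not at hcon
    have hch : ∀ β : b, ∃ (F : MvPolynomial (Fin N) ℂ) (k : ℕ), F.IsHomogeneous k ∧
        (∀ y ∈ reciprocal a, eval y F = 0) ∧ (β : Fin N → ℂ) = grad F p := fun β => hbs β.2
    choose F k hF hFX hFg using hch
    obtain ⟨g, hg⟩ := LinearMap.exists_leftInverse_of_injective
      (Finsupp.linearCombination ℂ ((↑) : b → (Fin N → ℂ))) (LinearMap.ker_eq_bot.2 hli)
    set w : b → Fin N → ℂ := fun γ i => g (Pi.single i 1) γ with hw
    have hgw : ∀ (v : Fin N → ℂ) (γ : b), g v γ = ∑ i, v i * w γ i := by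
      intro v γ
      exact pi_apply_sum ((Finsupp.lapply γ).comp g) v
    have hgβ : ∀ β γ : b, ∑ i, (β : Fin N → ℂ) i * w γ i = if β = γ then 1 else 0 := by
      intro β γ
      rw [← hgw]
      have h1 := LinearMap.congr_fun hg (Finsupp.single β 1)
      simp only [LinearMap.comp_apply, Finsupp.linearCombination_single, one_smul,
        LinearMap.id_apply] at h1
      rw [h1, Finsupp.single_apply]
    set M : Matrix b b (MvPolynomial (Fin N) ℂ) :=
      Matrix.of fun β γ => ∑ i, pderiv i (F β) * C (w γ i) with hM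
    have hMh : ∀ β γ, (M β γ).IsHomogeneous (k β - 1) := by
      intro β γ
      simp only [hM, Matrix.of_apply]
      refine IsHomogeneous.sum _ _ _ fun i _ => ?_
      rw [mul_comm]
      exact ((hF β).pderiv).C_mul _
    have hDh : M.det.IsHomogeneous (∑ β, (k β - 1)) := by
      rw [Matrix.det_apply]
      refine IsHomogeneous.sum _ _ _ fun σ _ => ?_
      have h1 : (∏ β, M (σ β) β).IsHomogeneous (∑ β, (k β - 1)) := by
        have h2 := IsHomogeneous.prod Finset.univ (fun β => M (σ β) β)
          (fun β => k (σ β) - 1) (fun β _ => hMh (σ β) β)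
        rwa [Equiv.sum_comp σ (fun β => k β - 1)] at h2
      rcases Int.units_eq_one_or (Equiv.Perm.sign σ) with h | h
      · rw [h, one_smul]; exact h1
      · rw [h, Units.neg_smul, one_smul]; exact h1.neg
    have heval : ∀ q : Fin N → ℂ, eval q M.det =
        (Matrix.of fun β γ => ∑ i, grad (F β) q i * w γ i).det := by
      intro q
      rw [RingHom.map_det]
      congr 1
      ext β γ
      simp [hM, grad]
    have hDR : ∀ q ∈ RR a, eval q M.det = 0 := by
      rintro q ⟨t, ht, rfl⟩
      rw [heval]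
      have hdep : ¬ LinearIndependent ℂ
          (fun β : b => grad (F β) (fun i => (form (a i) t)⁻¹)) := by
        intro hli2
        have h1 := finrank_span_eq_card hli2
        have h2 : Submodule.span ℂ (Set.range
            (fun β : b => grad (F β) (fun i => (form (a i) t)⁻¹))) ≤
            LinearMap.ker (Qt a t) := by
          rw [Submodule.span_le]
          rintro _ ⟨β, rfl⟩
          exact grad_mem_ker hN a t ht (F β) (k β) (hF β) (hFX β)
        have h3 := Submodule.finrank_mono h2
        have h4 := Qt_ker a ha t ht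
        omega
      rw [Fintype.not_linearIndependent_iff] at hdep
      obtain ⟨l, hl, β0, hβ0⟩ := hdep
      rw [← Matrix.exists_vecMul_eq_zero_iff]
      refine ⟨l, fun h => hβ0 (by rw [h]; rfl), ?_⟩
      funext γ
      simp only [Matrix.vecMul, dotProduct, Matrix.of_apply, Pi.zero_apply, Finset.mul_sum]
      rw [Finset.sum_comm]
      refine Finset.sum_eq_zero fun i _ => ?_
      have h5 := congrFun hl i
      simp only [Finset.sum_apply, Pi.smul_apply, smul_eq_mul, Pi.zero_apply] at h5
      have h6 : ∑ β : b, l β * (grad (F β) (fun i => (form (a i) t)⁻¹) i * w γ i) =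
          (∑ β : b, l β * grad (F β) (fun i => (form (a i) t)⁻¹) i) * w γ i := by
        rw [Finset.sum_mul]
        refine Finset.sum_congr rfl fun β _ => by ring
      rw [h6, h5, zero_mul]
    have hDp : eval p M.det = 0 := hp.2 _ _ hDh hDR
    rw [heval] at hDp
    have hone : (Matrix.of fun β γ : b => ∑ i, grad (F β) p i * w γ i) = 1 := by
      ext β γ
      rw [Matrix.of_apply, ← hFg β, hgβ β γ, Matrix.one_apply]
    rw [hone, Matrix.det_one] at hDp
    exact one_ne_zero hDp
  -- the kernel of the independent gradients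
  let Φ : (Fin N → ℂ) →ₗ[ℂ] (b → ℂ) :=
    { toFun := fun v β => ∑ i, (β : Fin N → ℂ) i * v i
      map_add' := by
        intro v w
        funext β
        simp only [Pi.add_apply, mul_add, Finset.sum_add_distrib]
      map_smul' := by
        intro c v
        funext β
        simp only [Pi.smul_apply, smul_eq_mul, RingHom.id_apply, Finset.mul_sum]
        refine Finset.sum_congr rfl fun i _ => by ring }
  have h1 := LinearMap.finrank_range_add_finrank_ker Φ
  have h2 : Module.finrank ℂ (LinearMap.range Φ) ≤ Fintype.card b := by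
    have := Submodule.finrank_le (LinearMap.range Φ)
    simpa using this
  have h3 : LinearMap.ker Φ ≤ tangent (reciprocal a) p := by
    intro v hv
    rw [mem_tangent_iff]
    intro g hg
    have hg2 : g ∈ Submodule.span ℂ b := by
      rw [hspan]
      exact Submodule.subset_span hg
    have hv2 : ∀ g ∈ b, ∑ i, g i * v i = 0 := fun g hg => congrFun hv ⟨g, hg⟩
    exact orth_span b v hv2 g hg2
  have h4 := Submodule.finrank_mono h3
  have h5 : Module.finrank ℂ (Fin N → ℂ) = N := by simp
  omega


/-- the torus points are smooth -/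
lemma smooth_RR (hN : N ≠ 0) (a : Fin N → Fin m → ℂ)
    (ha : Submodule.span ℂ (Set.range a) = ⊤) (t : Fin m → ℂ) (ht : ∀ i, form (a i) t ≠ 0) :
    Smooth (reciprocal a) (fun i => (form (a i) t)⁻¹) := by
  refine ⟨RR_mem hN a t ht, fun p hp => ?_⟩
  refine le_trans ?_ (le_finrank_tangent hN a ha p hp)
  have h1 : tangent (reciprocal a) (fun i => (form (a i) t)⁻¹) ≤ LinearMap.range (Lt a t) := by
    intro v hv
    obtain ⟨s, hs⟩ := tangent_sub hN a t ht v hv
    exact ⟨s, hs.symm⟩
  have h2 := Submodule.finrank_mono h1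
  have h3 := LinearMap.finrank_range_le (Lt a t)
  have h4 : Module.finrank ℂ (Fin m → ℂ) = m := by simp
  omega

/-- homogeneous polynomials are homogeneous functions -/
lemma eval_smul_hom (F : MvPolynomial (Fin N) ℂ) (k : ℕ) (hF : F.IsHomogeneous k) (c : ℂ)
    (y : Fin N → ℂ) : eval (c • y) F = c ^ k * eval y F := by
  rw [eval_eq', eval_eq', Finset.mul_sum]
  refine Finset.sum_congr rfl fun d hd => ?_
  have h1 : ∑ i, d i = k := by
    have := hF (mem_support_iff.1 hd)
    rw [← this, Finsupp.weight_apply, Finsupp.sum_fintype]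
    · simp
    · simp
  simp only [Pi.smul_apply, smul_eq_mul, mul_pow]
  rw [Finset.prod_mul_distrib, Finset.prod_pow_eq_pow_sum, h1]
  ring

/-- a polynomial vanishing on the (conical) set of torus points vanishes on its closure -/
lemma cone (a : Fin N → Fin m → ℂ) (G : MvPolynomial (Fin N) ℂ)
    (hG : ∀ y ∈ RR a, eval y G = 0) : ∀ x ∈ reciprocal a, eval x G = 0 := by
  have hcone : ∀ y ∈ RR a, ∀ c : ℂ, c ≠ 0 → c • y ∈ RR a := by
    rintro y ⟨t, ht, rfl⟩ c hc
    refine ⟨c⁻¹ • t, fun i => ?_, ?_⟩
    · rw [form_smul]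
      exact mul_ne_zero (inv_ne_zero hc) (ht i)
    · funext i
      rw [form_smul, mul_inv, inv_inv]
      rfl
  have hcomp : ∀ k, ∀ y ∈ RR a, eval y (homogeneousComponent k G) = 0 := by
    intro k y hy
    by_cases hk : G.totalDegree < k
    · rw [homogeneousComponent_eq_zero _ _ hk, map_zero]
    push Not at hk
    set P : Polynomial ℂ := ∑ j ∈ Finset.range (G.totalDegree + 1),
      Polynomial.C (eval y (homogeneousComponent j G)) * Polynomial.X ^ j with hP
    have hPe : ∀ c : ℂ, c ≠ 0 → P.eval c = 0 := by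
      intro c hc
      rw [← hG _ (hcone y hy c hc)]
      conv_rhs => rw [← sum_homogeneousComponent G]
      rw [hP, Polynomial.eval_finsetSum, map_sum]
      refine Finset.sum_congr rfl fun j _ => ?_
      rw [eval_smul_hom _ j (homogeneousComponent_isHomogeneous j G), Polynomial.eval_mul,
        Polynomial.eval_C, Polynomial.eval_pow, Polynomial.eval_X, mul_comm]
    have hP0 : P = 0 := by
      apply Polynomial.eq_zero_of_infinite_isRoot
      apply Set.Infinite.mono (s := {c : ℂ | c ≠ 0})
      · intro c hc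
        exact hPe c hc
      · have : ({c : ℂ | c ≠ 0}) = ({0} : Set ℂ)ᶜ := by ext; simp
        rw [this]
        exact (Set.finite_singleton (0 : ℂ)).infinite_compl
    have h1 : P.coeff k = eval y (homogeneousComponent k G) := by
      rw [hP, Polynomial.finsetSum_coeff]
      simp only [Polynomial.coeff_C_mul, Polynomial.coeff_X_pow]
      rw [Finset.sum_eq_single k]
      · simp
      · intro j _ hj
        simp [hj.symm]
      · intro hk2
        exact absurd (Finset.mem_range.2 (by omega)) hk2
    rw [← h1, hP0, Polynomial.coeff_zero]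
  intro x hx
  rw [← sum_homogeneousComponent G, map_sum]
  refine Finset.sum_eq_zero fun k _ => ?_
  exact hx.2 _ k (homogeneousComponent_isHomogeneous k G) (hcomp k)

/-- critical covectors are orthogonal to the tangent space -/
lemma crit_orth (hN : N ≠ 0) (a : Fin N → Fin m → ℂ) (t : Fin m → ℂ)
    (ht : ∀ i, form (a i) t ≠ 0) (u : Fin N → ℂ)
    (hu : ∀ j, ∑ i, u i * a i j / form (a i) t ^ 2 = 0) :
    ∀ v ∈ tangent (reciprocal a) (fun i => (form (a i) t)⁻¹), ∑ i, u i * v i = 0 := by
  intro v hv
  obtain ⟨s, rfl⟩ := tangent_sub hN a t ht v hv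
  have h1 : ∑ i, u i * (form (a i) s / form (a i) t ^ 2) =
      ∑ j, s j * ∑ i, u i * a i j / form (a i) t ^ 2 := by
    simp only [Finset.mul_sum]
    rw [Finset.sum_comm]
    refine Finset.sum_congr rfl fun i _ => ?_
    rw [form, Finset.sum_div, Finset.mul_sum]
    refine Finset.sum_congr rfl fun j _ => by ring
  rw [h1]
  exact Finset.sum_eq_zero fun j _ => by rw [hu j, mul_zero]

/-- homogeneous polynomials vanishing on the critical covectors vanish at all tangent
hyperplanes. -/
lemma van_dual (hN : N ≠ 0) (a : Fin N → Fin m → ℂ) (F : MvPolynomial (Fin N) ℂ)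
    (hF : ∀ u ∈ critical a, eval u F = 0) (x u : Fin N → ℂ) (hx : x ∈ reciprocal a)
    (hu : ∀ v ∈ tangent (reciprocal a) x, ∑ i, u i * v i = 0) : eval u F = 0 := by
  have hmem : u ∈ Submodule.span ℂ (Gs (reciprocal a) x) := by
    by_contra hcon
    obtain ⟨c, hc1, hc2⟩ := sep _ _ hcon
    apply hc2
    apply hu
    rw [mem_tangent_iff]
    exact fun g hg => hc1 g (Submodule.subset_span hg)
  rw [Submodule.mem_span_set'] at hmem
  obtain ⟨n, c, g, hg⟩ := hmem
  have hch : ∀ j, ∃ (F : MvPolynomial (Fin N) ℂ) (k : ℕ), F.IsHomogeneous k ∧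
      (∀ y ∈ reciprocal a, eval y F = 0) ∧ (g j : Fin N → ℂ) = grad F x := fun j => (g j).2
  choose Fj k hFj hFX hFg using hch
  set P : Fin N → MvPolynomial (Fin N) ℂ := fun i => ∑ j, C (c j) * pderiv i (Fj j) with hP
  set G : MvPolynomial (Fin N) ℂ := bind₁ P F with hG
  have hGe : ∀ q : Fin N → ℂ, eval q G = eval (fun i => eval q (P i)) F := by
    intro q
    have h0 : eval q (bind₁ P F) = eval₂Hom (RingHom.id ℂ) q (bind₁ P F) := rfl
    rw [hG, h0, eval₂Hom_bind₁]
    rfl
  have h1 : ∀ y ∈ RR a, eval y G = 0 := by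
    rintro y ⟨t, ht, rfl⟩
    rw [hGe]
    apply hF
    refine ⟨t, ht, fun l => ?_⟩
    have h2 : ∀ j, ∑ i, eval (fun i => (form (a i) t)⁻¹) (pderiv i (Fj j)) *
        (a i l / form (a i) t ^ 2) = 0 := by
      intro j
      have h := mem_tangent hN a t (Pi.single l 1) ht (Fj j) (k j) (hFj j) (hFX j)
      simp only [form_single] at h
      exact h
    have h3 : ∑ i, eval (fun i => (form (a i) t)⁻¹) (P i) * a i l / form (a i) t ^ 2 =
        ∑ j, c j * ∑ i, eval (fun i => (form (a i) t)⁻¹) (pderiv i (Fj j)) *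
        (a i l / form (a i) t ^ 2) := by
      simp only [hP, map_sum, map_mul, eval_C, Finset.mul_sum, Finset.sum_mul, Finset.sum_div]
      rw [Finset.sum_comm]
      refine Finset.sum_congr rfl fun j _ => Finset.sum_congr rfl fun i _ => by ring
    rw [h3]
    exact Finset.sum_eq_zero fun j _ => by rw [h2 j, mul_zero]
  have h4 := cone a G h1 x hx
  rw [hGe] at h4
  have h5 : (fun i => eval x (P i)) = u := by
    rw [← hg]
    funext i
    simp only [hP, map_sum, map_mul, eval_C, Finset.sum_apply, Pi.smul_apply, smul_eq_mul, hFg]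
    rfl
  rwa [h5] at h4

theorem t_GEO : Pool.Agent.U220.RD.S_GEO := by
  intro N m a ha _
  by_cases hN : N = 0
  · subst hN
    ext y
    constructor
    · intro h
      exact absurd (Subsingleton.elim y 0) h.1
    · intro h
      exact absurd (Subsingleton.elim y 0) h.1
  ext y
  constructor
  · intro hy
    refine ⟨hy.1, fun F k hF hFc => ?_⟩
    refine hy.2 F k hF ?_
    rintro u ⟨_, x, hx, hux⟩
    exact van_dual hN a F hFc x u hx.1 hux
  · intro hy
    refine ⟨hy.1, fun F k hF hFd => ?_⟩
    refine hy.2 F k hF ?_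
    have hne : ∀ u ∈ critical a, u ≠ 0 → eval u F = 0 := by
      rintro u ⟨t, ht, hu⟩ hu0
      exact hFd u ⟨hu0, _, smooth_RR hN a ha t ht, crit_orth hN a t ht u hu⟩
    intro u hu
    by_cases hu0 : u = 0
    · subst hu0
      have h1 := eval_smul_hom F k hF 0
      simp only [zero_smul] at h1
      by_cases hk : k = 0
      · subst hk
        simp only [pow_zero, one_mul] at h1
        by_cases hex : ∃ u' ∈ critical a, u' ≠ 0
        · obtain ⟨u', hu', hne'⟩ := hex
          rw [h1 u']
          exact hne u' hu' hne'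
        · push Not at hex
          exfalso
          apply hy.1
          funext i
          have h2 := hy.2 (X i) 1 (isHomogeneous_X ℂ i) (fun x hx => by
            rw [hex x hx]; simp)
          simpa using h2
      · rw [h1 0, zero_pow hk, zero_mul]
    · exact hne u hu hu0

end Pool.Agent.U928.RD

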